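import Pool.Agent.MP_6a4325_al.H62.Base

/-!
Idempotents of small trace generate a proper left ideal; FC groups with finite dimensional
solutions are abelian-by-finite.
-/

set_option autoImplicit false

namespace Pool.Agent.MP_6a4325_al.H88

open Matrix H62
open scoped commutatorElement

/-- the right regular representation -/
def reg (X : Type) [Group X] : X →* Module.End ℚ (X → ℚ) where
  toFun h := LinearMap.funLeft ℚ ℚ fun g => g * h
  map_one' := LinearMap.ext fun f => funext fun g => congrArg f (mul_one g)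
  map_mul' h h' := LinearMap.ext fun f => funext fun g => congrArg f (mul_assoc g h h').symm

theorem trace_reg {X : Type} [Group X] [Fintype X] (e : MonoidAlgebra ℚ X) :
    LinearMap.trace ℚ _ (MonoidAlgebra.lift ℚ _ X (reg X) e) = Fintype.card X * e.coeff 1 := by
  classical
  induction e using MonoidAlgebra.induction_linear with
  | zero => simp
  | add x y hx hy => simp [hx, hy, mul_add]
  | single h c =>
    rw [MonoidAlgebra.lift_single, map_smul, LinearMap.trace_eq_matrix_trace ℚ (Pi.basisFun ℚ X)]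
    by_cases hh : h = 1
    · subst hh
      simp [mul_comm]
    · simp [Matrix.trace, reg, LinearMap.funLeft_apply, hh]

theorem lift_reg {X : Type} [Group X] (e : MonoidAlgebra ℚ X) (v : X → ℚ) (g : X) :
    MonoidAlgebra.lift ℚ _ X (reg X) e v g = e.coeff.sum fun h c => c • v (g * h) := by
  rw [MonoidAlgebra.lift_apply, Finsupp.sum, Finsupp.sum, LinearMap.sum_apply, Finset.sum_apply]
  rfl

theorem rank : SRank := by
  classical
  intro G _ X hX T hT hs
  have := Fintype.ofFinite X
  have hi := X.subtype_injective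
  let r : MonoidAlgebra ℚ G → MonoidAlgebra ℚ X := MonoidAlgebra.comapDomain X.subtype hi
  have hr : ∀ e ∈ T, MonoidAlgebra.mapDomain X.subtype (r e) = e := fun e he =>
    MonoidAlgebra.mapDomain_comapDomain (fun g hg => ⟨⟨g, (hT e he).2 g hg⟩, rfl⟩) hi
  let A : T → Module.End ℚ (X → ℚ) := fun e => MonoidAlgebra.lift ℚ _ X (reg X) (r e)
  have hA : ∀ e : T, (Module.finrank ℚ (LinearMap.range (A e)) : ℚ) =
      Fintype.card X * e.1.coeff 1 := fun e => by
    have h1 : r e * r e = r e := MonoidAlgebra.mapDomain_injective hi (by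
      rw [MonoidAlgebra.mapDomain_mul, hr e e.2, (hT e e.2).1])
    have h2 : IsIdempotentElem (A e) := by
      change _ * _ = _
      rw [← map_mul, h1]
    rw [← (LinearMap.IsIdempotentElem.isProj_range _ h2).trace, trace_reg]
    simp [r]
  obtain ⟨v, v1, v2⟩ : ∃ v, v ≠ 0 ∧ ∀ e, A e v = 0 := by
    by_contra c
    push Not at c
    have h1 := LinearMap.finrank_le_finrank_of_injective
      (f := LinearMap.pi fun e : T => (A e).rangeRestrict)
      ((injective_iff_map_eq_zero _).2 fun v hv => by_contra fun h =>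
        let ⟨e, he⟩ := c v h
        he (congrArg Subtype.val (congrFun hv e)))
    rw [Module.finrank_fintype_fun_eq_card, Module.finrank_pi_fintype, ← Nat.cast_le (α := ℚ),
      Nat.cast_sum, Finset.sum_congr rfl fun e _ => hA e, ← Finset.mul_sum,
      Finset.sum_coe_sort T fun e => e.coeff 1] at h1
    have h2 : (0 : ℚ) < Fintype.card X := Nat.cast_pos.2 Fintype.card_pos
    nlinarith
  obtain ⟨x, hx⟩ := Function.ne_iff.1 v1
  refine span_ne_top_of_fun (fun g => if h : g ∈ X then v (x * ⟨g, h⟩) else 0)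
    (by rwa [dif_pos X.one_mem, show (⟨1, X.one_mem⟩ : X) = 1 from rfl, mul_one]) _
    fun e he g => ?_
  rw [← hr e he, MonoidAlgebra.mapDomain, MonoidAlgebra.coeff_ofCoeff,
    Finsupp.sum_mapDomain_index_inj hi]
  by_cases hg : g ∈ X
  · have h1 := congrFun (v2 ⟨e, he⟩) (x * ⟨g, hg⟩)
    rw [lift_reg] at h1
    refine Eq.trans (Finsupp.sum_congr fun h _ => ?_) h1
    rw [dif_pos (show g * X.subtype h ∈ X from X.mul_mem hg h.2), mul_assoc]
    rfl
  · refine Finset.sum_eq_zero fun h _ => ?_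
    exact smul_eq_zero_of_right _ (dif_neg fun k => hg ((X.mul_mem_cancel_right h.2).1 k))

variable {G : Type} [Group G]

/-- the average of a finite subgroup -/
theorem exists_av (D : Subgroup G) [Finite D] : ∃ e : MonoidAlgebra ℚ G, e * e = e ∧
    (∀ g ∈ e.coeff.support, g ∈ D) ∧ e.coeff 1 = (Nat.card D : ℚ)⁻¹ ∧
    ∀ (B : Type) [Ring B] [Algebra ℚ B] (ρ : G →* B), (∀ g ∈ D, ρ g = 1) →
      MonoidAlgebra.lift ℚ B G ρ e = 1 := by
  classical
  have := Fintype.ofFinite D
  have h0 : (Nat.card D : ℚ) ≠ 0 := Nat.cast_ne_zero.2 Nat.card_pos.ne'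
  have h1 : ∀ (B : Type) [Ring B] [Algebra ℚ B] (b : B),
      ∑ _g : D, (Nat.card D : ℚ)⁻¹ • b = b := fun B _ _ b => by
    rw [Finset.sum_const, Finset.card_univ, ← Nat.card_eq_fintype_card, ← Nat.cast_smul_eq_nsmul ℚ,
      smul_smul, mul_inv_cancel₀ h0, one_smul]
  refine ⟨∑ g : D, MonoidAlgebra.single (g : G) (Nat.card D : ℚ)⁻¹, ?_, fun g hg => ?_, ?_,
    fun B _ _ ρ hρ => ?_⟩
  · rw [Finset.sum_mul]
    refine Eq.trans (Finset.sum_congr rfl fun h _ => ?_) (h1 _ _)
    rw [Finset.mul_sum, Finset.smul_sum]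
    refine Fintype.sum_equiv (Equiv.mulLeft h) _ _ fun g => ?_
    simp [MonoidAlgebra.single_mul_single]
  · by_contra c
    refine Finsupp.mem_support_iff.1 hg ?_
    rw [MonoidAlgebra.coeff_sum, Finsupp.finsetSum_apply]
    exact Finset.sum_eq_zero fun h _ => Finsupp.single_eq_of_ne fun e => c (e ▸ h.2)
  · rw [MonoidAlgebra.coeff_sum, Finsupp.finsetSum_apply, Finset.sum_eq_single 1]
    · simp
    · exact fun h _ e => Finsupp.single_eq_of_ne fun k => e (Subtype.ext k.symm)
    · simp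
  · rw [map_sum]
    refine Eq.trans (Finset.sum_congr rfl fun h _ => ?_) (h1 _ _)
    rw [MonoidAlgebra.lift_single, hρ _ h.2]

/-- a representation that is non trivial on each member of a family of large finite sets -/
theorem exists_rep (hR : SRank) (hW : W1 G) (hL : LFD G) {ι : Type} (P : ι → Finset G)
    (hP : ∀ j, ∀ g ∈ P j, g ∈ commutator G) (h0 : ∀ j, (P j).Nonempty)
    (hs : ∀ s : Finset ι, ∑ j ∈ s, ((P j).card : ℚ)⁻¹ < 1) :
    ∃ (K : Type) (_ : Field K) (n : ℕ) (ρ : G →* Matrix (Fin n) (Fin n) K),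
      ∀ j, ∃ g ∈ P j, ρ g ≠ 1 := by
  classical
  have hf := fun j => hL (P j) (hP j)
  choose e e1 e2 e3 e4 using fun j => exists_av (Subgroup.closure (↑(P j) : Set G))
  obtain ⟨K, _, _, _, n, ρ, v, v1, v2⟩ := hW (Set.range e) fun T hT => by
    obtain ⟨s, -, rfl⟩ := Finset.subset_set_image_iff.1 (Set.image_univ ▸ hT)
    refine hR G _ (hL (s.biUnion P) fun g hg => ?_) _ (fun x hx => ?_) ?_
    · obtain ⟨j, -, hj⟩ := Finset.mem_biUnion.1 hg
      exact hP j g hj
    · obtain ⟨j, hj, rfl⟩ := Finset.mem_image.1 hx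
      exact ⟨e1 j, fun g hg => Subgroup.closure_mono
        (Finset.coe_subset.2 (Finset.subset_biUnion_of_mem P hj)) (e2 j g hg)⟩
    · refine (Finset.sum_image_le_of_nonneg fun x hx => ?_).trans_lt
        ((Finset.sum_le_sum fun j _ => ?_).trans_lt (hs s))
      · obtain ⟨j, -, rfl⟩ := Finset.mem_image.1 hx
        rw [e3]
        positivity
      · rw [e3]
        refine inv_anti₀ (Nat.cast_pos.2 (h0 j).card_pos) (Nat.cast_le.2 ?_)
        rw [← Set.ncard_coe_finset]
        exact Set.ncard_le_ncard Subgroup.subset_closure (Set.toFinite _)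
  refine ⟨K, inferInstance, n, ρ, fun j => by_contra fun c => v1 ?_⟩
  push Not at c
  have h1 := v2 _ ⟨j, rfl⟩
  rwa [show act ℚ ρ (e j) = 1 from e4 j _ ρ ((Subgroup.closure_le ρ.ker).2 c), one_mulVec] at h1

theorem t1 (hR : SRank) : ST1 := by
  classical
  intro G _ hW hF
  by_contra hV
  have step : ∀ S : Finset G, ∃ p : G × G, (∀ s ∈ S, s * p.1 = p.1 * s) ∧ ⁅p.1, p.2⁆ ≠ 1 := by
    intro S
    by_contra c
    push Not at c
    refine hV (VA.of_comm (⨅ g ∈ S, Subgroup.centralizer ({g} : Set G))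
      (Subgroup.finiteIndex_iInf' _ fun g _ => hF g) fun a ha b _ => ?_)
    exact commutatorElement_eq_one_iff_mul_comm.1 (c (a, b) fun s hs =>
      (Subgroup.mem_centralizer_singleton_iff.1
        (Subgroup.mem_iInf.1 (Subgroup.mem_iInf.1 ha s) hs)).symm)
  choose f f1 f2 using step
  obtain ⟨S, hS⟩ : ∃ S : ℕ → Finset G, ∀ k, S (k + 1) = insert (f (S k)).2 (S k) :=
    ⟨fun k => Nat.rec ∅ (fun _ S => insert (f S).2 S) k, fun _ => rfl⟩
  let c : ℕ → G := fun k => ⁅(f (S k)).1, (f (S k)).2⁆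
  have hc : ∀ k, c k ∈ commutator G := fun k =>
    Subgroup.commutator_mem_commutator (Subgroup.mem_top _) (Subgroup.mem_top _)
  have key : ∀ (K : Type) [Field K] (n : ℕ) (ρ : G →* Matrix (Fin n) (Fin n) K),
      ∃ N, ∀ k, N ≤ k → ρ (c k) = 1 := by
    intro K _ n ρ
    let C : ℕ → Submodule K (Matrix (Fin n) (Fin n) K) := fun k =>
      (Subalgebra.centralizer K (ρ '' (S k : Set G))).toSubmodule
    obtain ⟨N, hN⟩ := IsArtinian.monotone_stabilizes
      (⟨C, monotone_nat_of_le_succ fun k => Subalgebra.centralizer_le K _ _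
        (Set.image_mono (Finset.coe_subset.2 (hS k ▸ Finset.subset_insert _ _)))⟩ :
          ℕ →o (Submodule K (Matrix (Fin n) (Fin n) K))ᵒᵈ)
    refine ⟨N, fun k hk => ?_⟩
    have h1 : C k = C (k + 1) := (hN k hk).symm.trans (hN (k + 1) (by omega))
    have h2 : ρ (f (S k)).1 ∈ C k := by
      rintro _ ⟨s, hs, rfl⟩
      rw [← map_mul, ← map_mul, f1 _ s hs]
    have h3 : ρ (f (S k)).2 * ρ (f (S k)).1 = ρ (f (S k)).1 * ρ (f (S k)).2 :=
      (h1 ▸ h2 : _ ∈ C (k + 1)) _ ⟨_, hS k ▸ Finset.mem_insert_self _ _, rfl⟩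
    change ρ ⁅_, _⁆ = 1
    rw [commutatorElement_def, map_mul, map_mul, map_mul, ← h3, mul_assoc (ρ _), ← map_mul,
      mul_inv_cancel, map_one, mul_one, ← map_mul, mul_inv_cancel, map_one]
  by_cases hA : ∀ j, (c '' Set.Ici j).Infinite
  · choose P P1 P2 using fun j => (hA j).exists_subset_card_eq (2 ^ (j + 2))
    obtain ⟨K, _, n, ρ, hρ⟩ := exists_rep hR hW (lfd_of_fc hF) P
      (fun j g hg => let ⟨k, _, e⟩ := P1 j hg; e ▸ hc k)
      (fun j => Finset.card_pos.1 (P2 j ▸ by positivity)) fun s => by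
        obtain ⟨m, hm⟩ := s.exists_nat_subset_range
        have h1 : ∀ m, ∑ j ∈ Finset.range m, ((P j).card : ℚ)⁻¹ = 2⁻¹ - (2 ^ (m + 1))⁻¹ := by
          intro m
          induction m with
          | zero => simp
          | succ m ih =>
            rw [Finset.sum_range_succ, ih, P2]
            push_cast
            field_simp
            ring
        refine (Finset.sum_le_sum_of_subset_of_nonneg hm fun _ _ _ => by positivity).trans_lt ?_
        have : (0 : ℚ) < (2 ^ (m + 1))⁻¹ := by positivity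
        rw [h1]
        linarith
    obtain ⟨N, hN⟩ := key K n ρ
    obtain ⟨g, g1, g2⟩ := hρ N
    obtain ⟨k, k1, rfl⟩ := P1 N g1
    exact g2 (hN k k1)
  · push Not at hA
    obtain ⟨j, hj⟩ := hA
    obtain ⟨i, hz⟩ : ∃ i, ∃ᶠ k in Filter.atTop, c k = c i := by
      by_contra h
      obtain ⟨k, k1, k2⟩ := (((Filter.eventually_all_finite hj).2 (by
        rintro _ ⟨i, -, rfl⟩
        exact Filter.not_frequently.1 fun k => h ⟨i, k⟩) :
          ∀ᶠ k in Filter.atTop, ∀ z ∈ c '' Set.Ici j, ¬ c k = z).and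
        (Filter.eventually_ge_atTop j)).exists
      exact k1 _ ⟨k, k2, rfl⟩ rfl
    have h1 : ({1, c i} : Finset G).card = 2 := Finset.card_pair (f2 _).symm
    obtain ⟨K, _, n, ρ, hρ⟩ := exists_rep hR hW (lfd_of_fc hF) (fun _ : Unit => {1, c i})
      (fun _ g hg => by
        rcases Finset.mem_insert.1 hg with rfl | hg
        exacts [one_mem _, Finset.mem_singleton.1 hg ▸ hc i])
      (fun _ => Finset.insert_nonempty _ _) fun s => by
        refine (Finset.sum_le_sum_of_subset_of_nonneg s.subset_univ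
          fun _ _ _ => by positivity).trans_lt ?_
        rw [Fintype.sum_unique, h1]
        norm_num
    obtain ⟨N, hN⟩ := key K n ρ
    obtain ⟨g, g1, g2⟩ := hρ ()
    obtain ⟨k, k1, k2⟩ := (hz.and_eventually (Filter.eventually_ge_atTop N)).exists
    rcases Finset.mem_insert.1 g1 with rfl | g1
    · exact g2 (map_one ρ)
    · exact g2 (Finset.mem_singleton.1 g1 ▸ k1 ▸ hN k k2)

end Pool.Agent.MP_6a4325_al.H88
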