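import Pool.Agent.MP_6a4325_al.H62.Base2

/-!
Row WZ: finite dimensional solutions give property (Z).
-/

set_option autoImplicit false

namespace Pool.Agent.MP_6a4325_al.H88

open H62 Matrix

section Gen

variable {R M : Type} [Ring R] [AddCommGroup M] [Module R M] [IsSimpleModule R M]

/-- a relation with coefficients in the endomorphism ring gives a relation with central
coefficients -/
theorem central_rel {ι : Type} [Fintype ι] (x : ι → R) (d : ι → Module.End R M) (hd : d ≠ 0)
    (h : ∀ m : M, ∑ i, d i (x i • m) = 0) :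
    ∃ z : ι → Subring.center (Module.End R M), z ≠ 0 ∧ ∀ m : M, ∑ i, z i • (x i • m) = 0 := by
  classical
  obtain ⟨n, hn⟩ : ∃ n, (Finset.univ.filter fun i => d i ≠ 0).card = n := ⟨_, rfl⟩
  induction n using Nat.strong_induction_on generalizing d with
  | _ n ih =>
    obtain ⟨j, hj⟩ := Function.ne_iff.1 hd
    have hj' : d j ≠ 0 := hj
    let e : ι → Module.End R M := fun i => (d j)⁻¹ * d i
    have ej : e j = 1 := inv_mul_cancel₀ hj'
    have he : ∀ m : M, ∑ i, e i (x i • m) = 0 := fun m => by
      have := congrArg ((d j)⁻¹ : Module.End R M) (h m)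
      rw [map_sum, map_zero] at this
      exact this
    by_cases hc : ∀ i, e i ∈ Subring.center (Module.End R M)
    · refine ⟨fun i => ⟨e i, hc i⟩, fun e0 => ?_, he⟩
      have := congrArg Subtype.val (congrFun e0 j)
      exact one_ne_zero (ej.symm.trans this)
    · push Not at hc
      obtain ⟨i, hi⟩ := hc
      rw [Subring.mem_center_iff] at hi
      push Not at hi
      obtain ⟨u, hu⟩ := hi
      refine ih _ ?_ (fun l => u * e l - e l * u) (fun e0 => hu (sub_eq_zero.1 (congrFun e0 i)))
        (fun m => ?_) rfl
      · rw [← hn]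
        refine Finset.card_lt_card ⟨fun l hl => ?_, fun hs => ?_⟩
        · simp only [Finset.mem_filter, Finset.mem_univ, true_and] at hl ⊢
          intro e0
          exact hl (by simp [e, e0])
        · have := hs (Finset.mem_filter.2 ⟨Finset.mem_univ j, hj'⟩)
          simp only [Finset.mem_filter, Finset.mem_univ, true_and] at this
          exact this (by rw [ej, mul_one, one_mul, sub_self])
      · have h1 := congrArg u (he m)
        rw [map_sum, map_zero] at h1
        have h2 := he (u m)
        simp only [LinearMap.sub_apply, Module.End.mul_apply, Finset.sum_sub_distrib, map_smul u]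
        rw [h1, h2, sub_zero]

/-- a submodule of a power that misses a coordinate vector is killed by a nonzero functional -/
theorem ex_rel {ι : Type} [Fintype ι] [DecidableEq ι] (S : Submodule R (ι → M)) (j : ι) (v : M)
    (hv : (Pi.single j v : ι → M) ∉ S) :
    ∃ d : ι → Module.End R M, d ≠ 0 ∧ ∀ w ∈ S, ∑ i, d i (w i) = 0 := by
  have : IsSemisimpleModule R M := inferInstance
  let f : M →ₗ[R] (ι → M) ⧸ S := S.mkQ ∘ₗ LinearMap.single R (fun _ => M) j
  have hf : f ≠ 0 := fun e => hv ((Submodule.Quotient.mk_eq_zero S).1 (LinearMap.congr_fun e v))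
  obtain ⟨g, hg⟩ := IsSemisimpleModule.extension_property f (LinearMap.injective_of_ne_zero hf)
    LinearMap.id
  have := IsSimpleModule.nontrivial R M
  refine ⟨fun i => g ∘ₗ S.mkQ ∘ₗ LinearMap.single R (fun _ => M) i, fun e => ?_, fun w hw => ?_⟩
  · have h1 := congrFun e j
    exact one_ne_zero ((show (1 : Module.End R M) = _ from hg.symm).trans h1)
  · have h1 : ∑ i, (g ∘ₗ S.mkQ ∘ₗ LinearMap.single R (fun _ => M) i) (w i) =
        g (S.mkQ (∑ i, Pi.single i (w i))) := by
      rw [map_sum, map_sum]; rfl
    rw [h1, Finset.univ_sum_single, show S.mkQ w = 0 from (Submodule.Quotient.mk_eq_zero S).2 hw,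
      map_zero]

/-- a simple module that embeds in a matrix representation is finite over the centre of its
endomorphism ring -/
theorem fin_center {K : Type} [Field K] {n : ℕ} (π : R →+* Matrix (Fin n) (Fin n) K) (v₀ : M)
    (h₀ : v₀ ≠ 0) (v : Fin n → K) (hv : v ≠ 0) (h : ∀ r : R, r • v₀ = 0 → π r *ᵥ v = 0) :
    Module.Finite (Subring.center (Module.End R M)) M := by
  classical
  have sur := IsSimpleModule.toSpanSingleton_surjective R h₀
  have key : ∀ {ι : Type} [Fintype ι] (w : ι → M), n * n < Fintype.card ι →
      ¬ LinearIndependent (Subring.center (Module.End R M)) w := fun {ι} _ w hι => by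
    choose x hx using fun i => sur (w i)
    have h1 : ¬ LinearIndependent K fun i => π (x i) := fun hl => by
      have := hl.fintype_card_le_finrank
      rw [Module.finrank_matrix, Fintype.card_fin, Module.finrank_self, mul_one] at this
      omega
    obtain ⟨c, hc, j, hj⟩ := Fintype.not_linearIndependent_iff.1 h1
    let S : Submodule R (ι → M) :=
      { carrier := {m | ∃ r : ι → R, (∀ i, m i = r i • v₀) ∧ ∑ i, c i • π (r i) *ᵥ v = 0}
        add_mem' := by
          rintro a b ⟨r, h1, h2⟩ ⟨s, h3, h4⟩
          refine ⟨r + s, fun i => by rw [Pi.add_apply, h1, h3, Pi.add_apply, add_smul], ?_⟩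
          simp only [Pi.add_apply, map_add, add_mulVec, smul_add, Finset.sum_add_distrib, h2, h4,
            add_zero]
        zero_mem' := ⟨0, fun i => by simp, by simp⟩
        smul_mem' := by
          rintro a m ⟨r, h1, h2⟩
          refine ⟨fun i => a * r i, fun i => by rw [Pi.smul_apply, h1, mul_smul], ?_⟩
          have := congrArg (π a *ᵥ ·) h2
          simp only [mulVec_sum, mulVec_smul, mulVec_zero, mulVec_mulVec] at this
          simpa only [map_mul] using this }
    have hS : (Pi.single j v₀ : ι → M) ∉ S := by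
      rintro ⟨r, h1, h2⟩
      have h3 : ∀ i, c i • π (r i) *ᵥ v = (Pi.single j (c j • v) : ι → Fin n → K) i := fun i => by
        by_cases e : i = j
        · subst e
          have h4 := h (r i - 1) (by rw [sub_smul, ← h1, one_smul, Pi.single_eq_same, sub_self])
          rw [map_sub, map_one, sub_mulVec, one_mulVec, sub_eq_zero] at h4
          rw [h4, Pi.single_eq_same]
        · rw [h (r i) (by rw [← h1, Pi.single_eq_of_ne e]), smul_zero, Pi.single_eq_of_ne e]
      simp only [h3, Finset.sum_pi_single', Finset.mem_univ, if_true] at h2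
      exact hv ((smul_eq_zero.1 h2).resolve_left hj)
    obtain ⟨d, hd, hd'⟩ := ex_rel S j v₀ hS
    obtain ⟨z, hz, hz'⟩ := central_rel x d hd fun m => by
      obtain ⟨y, rfl⟩ := sur m
      refine hd' (fun i => x i • LinearMap.toSpanSingleton R M v₀ y) ⟨fun i => x i * y,
        fun i => by rw [mul_smul]; rfl, ?_⟩
      have := congrArg (· *ᵥ (π y *ᵥ v)) hc
      simp only [sum_mulVec, smul_mulVec, zero_mulVec] at this
      simpa only [map_mul, mulVec_mulVec] using this
    refine Fintype.not_linearIndependent_iff.2 ⟨z, ?_, Function.ne_iff.1 hz⟩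
    rw [← hz' v₀]
    exact Finset.sum_congr rfl fun i _ => by rw [← hx i]; rfl
  have h2 : Module.rank (Subring.center (Module.End R M)) M ≤ (n * n : ℕ) :=
    rank_le fun s hs => not_lt.1 fun hl => key _ (by rwa [Fintype.card_coe]) hs
  exact Module.rank_lt_aleph0_iff.1 (h2.trans_lt (Cardinal.natCast_lt_aleph0))

end Gen

theorem wz : SWZ := by
  intro F G _ _ h M _ _ hM
  have := IsSimpleModule.nontrivial (MonoidAlgebra F G) M
  obtain ⟨v₀, h₀⟩ := exists_ne (0 : M)
  let L : Submodule (MonoidAlgebra F G) (Fin 1 → MonoidAlgebra F G) :=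
    (LinearMap.ker (LinearMap.toSpanSingleton (MonoidAlgebra F G) M v₀)).comap (LinearMap.proj 0)
  have hL : L ≠ ⊤ := fun e => by
    have h1 : (fun _ => 1 : Fin 1 → MonoidAlgebra F G) ∈ L := e ▸ Submodule.mem_top
    exact h₀ ((one_smul _ v₀).symm.trans h1)
  obtain ⟨K, _, _, _, n, ρ, v, hv, hs⟩ := h 1 L hL
  refine fin_center (act F ρ).toRingHom v₀ h₀ (v 0) (fun e => hv (funext fun i => ?_))
    fun r hr => ?_
  · rw [Subsingleton.elim i 0, e]; rfl
  · have := hs (fun _ => r) hr
    rwa [Fin.sum_univ_one] at this

end Pool.Agent.MP_6a4325_al.H88
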